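import Pool.Agent.R620.PrimN

/-!
# Primitivity of quasivarieties generated by finite Heyting algebras is decidable

There is a primitive recursive function on lists of natural numbers which, given the operation
tables of a finite Heyting algebra `A`, decides whether the quasivariety `Q(A)` generated by `A` is
primitive. (Definitions: `Pool.Agent.R620.PrimDefs`; `tables` is in `Pool.Agent.H877R3.HSC.Defs`.)

Idea. For `A` with `n` elements, `Q(A)` is primitive if and only if for every algebra `B` in `Q(A)`
with at most `n` elements and every algebra `C` in `Q(A)` with at most `n ^ (n ^ n)` elements, such
that `B` is a homomorphic image of `C`, the homomorphisms from `B` to `C` separate the points of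
`B`. If `K'` is a subquasivariety and an algebra `D` of `Q(A)` satisfies the identities of `K'` but
not a quasi-identity of `K'`, then the latter fails in the image `B` of a finitely generated
subalgebra of `D` under a homomorphism to `A`; and `B` is a homomorphic image of a free algebra
`C` of `K'`.
-/

set_option autoImplicit false

namespace Pool.Agent.Results.MP_51e3d2_lc.PrimitiveDecidable

open Pool.Agent.H877R3.HSC (tables)
open Pool.Agent.R620.Prim

/-- **Primitivity of `Q(A)` is decidable for finite Heyting algebras `A`.** -/
theorem result : ∃ f : List ℕ → Bool, Primrec f ∧
    ∀ (A : Type) [HeytingAlgebra A] (n : ℕ) (e : A ≃ Fin n),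
      f (tables e) = true ↔ Primitive (QV A) :=
  main

end Pool.Agent.Results.MP_51e3d2_lc.PrimitiveDecidable
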